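import Mathlib
import Pool.Agent.H64.RP.Count

/-!
# The number of the regular indices of a prime up to `K`

For a prime `p` let `s` be the number of the `i ≤ K` such that `p` does not divide the numerator of
`B_{2i}`. Then `s ^ 4 ≥ (8/9 - ε) K ^ 3` for all `K ≥ K₀(ε)` and all primes `p ≥ 2 K + 3`: for every prime,
with the same `K₀`.

Outline. For `2 ≤ N ≤ K` let `r_N` be the number of the `i`, `0 < i < N`, such that `i` and `N - i` are
regular indices. The three relations between Bernoulli numbers that come from the addition theorem of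
`coth` and its translates by points of order two, and a comparison with the degree of a Wronskian, give
`2 N ≤ (r_N + 1) ^ 2` unless `4 ^ N` is `1` or `4` modulo `p`, and `2 N ≤ 3 (r_N + 1) ^ 2` always
(`Pool/Agent/H64/RP/Main3.lean`). As the order of `4` modulo `p` is at least `log p / log 4`, there are
few exceptional `N`; and the sum of the `r_N`, `N ≤ K`, is at most `s ^ 2`.
-/

set_option autoImplicit false

namespace Pool.Agent.Results.MP_a3a416_nt.IndexCountEightNinths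

open Finset

/-- For every `ε > 0` there is `K₀` such that for every prime `p` and every `K ≥ K₀` with
`2 K + 3 ≤ p` the number `s` of the `i`, `1 ≤ i ≤ K`, such that `p` does not divide the numerator of the
Bernoulli number `B_{2i}` satisfies `s ^ 4 ≥ (8 / 9 - ε) K ^ 3`. -/
theorem result (ε : ℝ) (hε : 0 < ε) : ∃ K₀ : ℕ, ∀ p K : ℕ, p.Prime → K₀ ≤ K → 2 * K + 3 ≤ p →
    (8 / 9 - ε) * (K : ℝ) ^ 3 ≤
      ((((Finset.Icc 1 K).filter
        (fun i : ℕ => ¬ ((p : ℤ) ∣ (bernoulli (2 * i)).num))).card : ℕ) : ℝ) ^ 4 := by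
  by_cases hε2 : 8 / 9 ≤ ε
  · refine ⟨0, fun p K _ _ _ => ?_⟩
    have h1 : (8 / 9 - ε) * (K : ℝ) ^ 3 ≤ 0 :=
      mul_nonpos_of_nonpos_of_nonneg (by linarith) (by positivity)
    exact h1.trans (by positivity)
  push Not at hε2
  obtain ⟨L, hL⟩ : ∃ L : ℕ, 8 / ε < L := exists_nat_gt _
  obtain ⟨M, hM⟩ : ∃ M : ℕ, (8 / ε) ^ 2 < M := exists_nat_gt _
  have h8 : 0 < 8 / ε := by positivity
  have hL0 : (0 : ℝ) < L := h8.trans hL
  have hL1 : 1 ≤ L := by exact_mod_cast hL0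
  refine ⟨max 2 (max (4 ^ L) M), fun p K hp hK hKp => ?_⟩
  have : Fact p.Prime := ⟨hp⟩
  have hK2 : 2 ≤ K := (le_max_left _ _).trans hK
  have hK4 : 4 ^ L ≤ K := ((le_max_left _ _).trans (le_max_right _ _)).trans hK
  have hKM : M ≤ K := ((le_max_right _ _).trans (le_max_right _ _)).trans hK
  have h1 := Pool.Agent.H64.RP.count_explicit p K L hK2 hKp hL1 (by omega)
  have hfil : (Icc 1 K).filter (Pool.Agent.H64.RP.Rg p) =
      (Finset.Icc 1 K).filter (fun i : ℕ => ¬ ((p : ℤ) ∣ (bernoulli (2 * i)).num)) := by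
    ext i
    rw [mem_filter, mem_filter]
    exact Iff.rfl
  rw [hfil] at h1
  set s : ℝ := ((((Finset.Icc 1 K).filter
    (fun i : ℕ => ¬ ((p : ℤ) ∣ (bernoulli (2 * i)).num))).card : ℕ) : ℝ) with hs
  set y := √(K : ℝ) with hy
  have hKr : (2 : ℝ) ≤ K := by exact_mod_cast hK2
  have hy2 : y * y = K := Real.mul_self_sqrt (by positivity)
  have hy0 : 0 ≤ y := Real.sqrt_nonneg _
  have hyL : 8 / ε ≤ y := by
    rw [hy]
    apply Real.le_sqrt_of_sq_le
    have : (M : ℝ) ≤ K := by exact_mod_cast hKM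
    linarith
  have hεy : 8 ≤ ε * y := by
    rw [div_le_iff₀ hε] at hyL
    linarith
  have hεL : 8 < ε * L := by
    rw [div_lt_iff₀ hε] at hL
    linarith
  have h2 : √2 ≤ 2 := by
    rw [Real.sqrt_le_left (by norm_num)]; norm_num
  have h20 : 0 ≤ √2 := Real.sqrt_nonneg _
  have h22 : √2 * √2 = 2 := Real.mul_self_sqrt (by norm_num)
  have h23 : √2 ≤ 3 / 2 := by
    rw [Real.sqrt_le_left (by norm_num)]; norm_num
  -- the two error terms
  have e1 : (K : ℝ) + 1 ≤ ε / 4 * (K * y) := by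
    have : 2 * (K : ℝ) ≤ ε / 4 * (K * y) := by nlinarith
    linarith
  have e2 : (K : ℝ) / L * (√2 * y) ≤ ε / 4 * (K * y) := by
    rw [div_mul_eq_mul_div, div_le_iff₀ hL0]
    have hKy : 0 ≤ (K : ℝ) * y := by positivity
    nlinarith
  have h3 : (2 / 3 * √2 - ε / 2) * (K * y) ≤ s ^ 2 := by nlinarith
  have h14 : 1 ≤ √2 := by
    apply Real.le_sqrt_of_sq_le; norm_num
  have h4 : 0 ≤ (2 / 3 * √2 - ε / 2) * (K * y) := by
    apply mul_nonneg _ (by positivity)
    linarith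
  have h5 : ((2 / 3 * √2 - ε / 2) * (K * y)) ^ 2 ≤ (s ^ 2) ^ 2 := pow_le_pow_left₀ h4 h3 2
  have h6 : ((2 / 3 * √2 - ε / 2) * (K * y)) ^ 2 = (2 / 3 * √2 - ε / 2) ^ 2 * (K : ℝ) ^ 3 := by
    have : (K * y) ^ 2 = (K : ℝ) ^ 3 := by
      rw [mul_pow, sq y, hy2]; ring
    rw [mul_pow, this]
  have h7 : 8 / 9 - ε ≤ (2 / 3 * √2 - ε / 2) ^ 2 := by nlinarith
  have h9 : (8 / 9 - ε) * (K : ℝ) ^ 3 ≤ (2 / 3 * √2 - ε / 2) ^ 2 * (K : ℝ) ^ 3 :=
    mul_le_mul_of_nonneg_right h7 (by positivity)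
  calc (8 / 9 - ε) * (K : ℝ) ^ 3 ≤ (s ^ 2) ^ 2 := by rw [← h6] at h9; exact h9.trans h5
    _ = s ^ 4 := by ring

end Pool.Agent.Results.MP_a3a416_nt.IndexCountEightNinths
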