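import Mathlib
import Pool.Agent.H64.RP.Main3

/-!
# In how many ways is a number a sum of two regular indices?

Call `i`, `1 ≤ i ≤ (p - 3) / 2`, a regular index of the prime `p` if `p` does not divide the
numerator of `B_{2i}`. Let `2 ≤ N ≤ (p - 3) / 2` and let `r` be the number of the `i`, `V < i < N - V`,
such that `i` and `N - i` are both regular indices. Then `2 N ≤ 3 (r + 1) (r + 1 + 2 V)`, and
`2 N ≤ (r + 1) ^ 2 + 2 V (r + 3)` unless `p` divides `(4 ^ N - 1) (4 ^ (N - 1) - 1)`.

Outline. Let `f = (1/2) coth (x/2)`, `g = (1/2) tanh (x/2)` (so `g(x) = 2 f(2x) - f(x)`), `c = a + b`.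
1. Besides `f(a) f(b) + 1/4 = f(c) (f(a) + f(b))` there are the translates by points of order two,
   `g(a) g(b) + 1/4 = f(c) (g(a) + g(b))` and `f(a) g(b) + 1/4 = g(c) (f(a) + g(b))`. Their parts of
   degree `2N - 2` are three linear relations modulo `p` between the polynomials
   `a ^ (2i-1) b ^ (2j-1)`, `a ^ (2i-1) c ^ (2j-1)`, `b ^ (2i-1) c ^ (2j-1)`, `i + j = N`, and only those
   with regular `i`, `j` occur. The coefficients contain `4 ^ i - 1`, and the three relations are
   independent unless `4 ^ N` is `1` or `4` modulo `p` (`rank_three`).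
2. Let `W` be the span of these polynomials (multiplied by `a b c`, and with all those with `i ≤ V` or
   `j ≤ V`). Its dimension is at most the number of the polynomials minus the number of relations, but at
   each of the three points `a = 0`, `b = 0`, `c = 0` two of the three families have many zeros of high
   order, and by the addition theorem for functions of two types they are independent.
3. The Wronskian of a basis of `W` (not zero, as the degrees are smaller than `p`) has a divisor of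
   degree `n (D + 1 - n)` at most, `n = dim W`; the comparison is the theorem (`plucker`,
   `bound_of_rank`).
-/

set_option autoImplicit false

namespace Pool.Agent.Results.MP_a3a416_nt.TorsionRelations

open Finset Pool.Agent.H332R2 Pool.Agent.TH350.SumReg Pool.Agent.Y374.RP

/-- Let `p` be a prime, `2 ≤ N ≤ (p - 3) / 2` and `2 V < N`, and let `r` be the number of the `i`,
`V < i < N - V`, such that `p` divides neither the numerator of `B_{2i}` nor the numerator of
`B_{2(N-i)}`. Then `2 N ≤ 3 (r + 1) (r + 1 + 2 V)`, and if `p` divides neither `4 ^ N - 1` nor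
`4 ^ (N - 1) - 1` then `2 N ≤ (r + 1) ^ 2 + 2 V (r + 3)`. -/
theorem result (p : ℕ) (hp : p.Prime) (N : ℕ) (hN2 : 2 ≤ N) (hN : 2 * N + 3 ≤ p) (V : ℕ)
    (hV : 2 * V < N) (r : ℕ)
    (hr : r = ((Finset.Ioo V (N - V)).filter (fun i : ℕ => ¬ ((p : ℤ) ∣ (bernoulli (2 * i)).num) ∧
      ¬ ((p : ℤ) ∣ (bernoulli (2 * (N - i))).num))).card) :
    2 * N ≤ 3 * (r + 1) * (r + 1 + 2 * V) ∧
      (¬ p ∣ 4 ^ N - 1 → ¬ p ∣ 4 ^ (N - 1) - 1 → 2 * N ≤ (r + 1) ^ 2 + 2 * V * (r + 3)) := by
  have : Fact p.Prime := ⟨hp⟩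
  have hccb : ∀ m, 2 * m + 3 ≤ p → (cc p (2 * m) = 0 ↔ (p : ℤ) ∣ (bernoulli (2 * m)).num) :=
    fun m hm => cc_eq_zero_iff (by omega) (by omega)
  have h2 : JJ p N V = (Finset.Ioo V (N - V)).filter
      (fun i : ℕ => ¬ ((p : ℤ) ∣ (bernoulli (2 * i)).num) ∧
      ¬ ((p : ℤ) ∣ (bernoulli (2 * (N - i))).num)) := by
    unfold JJ
    refine filter_congr fun i hi => ?_
    rw [mem_Ioo] at hi
    rw [← hccb i (by omega), ← hccb (N - i) (by omega)]
    unfold ww
    rw [mul_ne_zero_iff]
  rw [← h2] at hr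
  rw [hr]
  have hcast : ∀ m : ℕ, (p ∣ 4 ^ m - 1) ↔ (4 : ZMod p) ^ m = 1 := by
    intro m
    rw [← CharP.cast_eq_zero_iff (ZMod p) p, Nat.cast_sub (Nat.one_le_pow _ _ (by norm_num)), sub_eq_zero]
    push_cast
    exact Iff.rfl
  refine ⟨Pool.Agent.H64.RP.bound_all p N V hN hN2 hV, fun h4 h4' => ?_⟩
  refine Pool.Agent.H64.RP.bound_gen p N V hN hN2 hV (fun h => h4 ((hcast N).2 h)) (fun h => h4' ?_)
  rw [hcast]
  have h4ne : (4 : ZMod p) ≠ 0 := by
    have h5 : ((4 : ℕ) : ZMod p) ≠ 0 := nat_ne_zero (p := p) (by norm_num) (by omega)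
    exact_mod_cast h5
  obtain ⟨m, rfl⟩ : ∃ m, N = m + 1 := ⟨N - 1, by omega⟩
  rw [Nat.add_sub_cancel]
  rw [pow_succ] at h
  exact mul_right_cancel₀ h4ne (by rw [h, one_mul])

end Pool.Agent.Results.MP_a3a416_nt.TorsionRelations
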